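import Pool.Agent.helper83.SC.Defs

/-!
Linear algebra of the mixed discriminant `mD`: polarization, multilinearity, symmetry,
nonnegativity for positive semidefinite matrices, comparison with determinants of sums.
-/

namespace Pool.Agent.helper83.SC

open Finset Matrix

variable {m : ℕ}

/-- Determinant with prescribed rows: row `i` from `M (φ i)`. -/
noncomputable def LA_row (M : Fin m → Matrix (Fin m) (Fin m) ℝ) (φ : Fin m → Fin m) : ℝ :=
  (Matrix.of fun i j => M (φ i) i j).det

theorem LA_det_sum (M : Fin m → Matrix (Fin m) (Fin m) ℝ) (J : Finset (Fin m)) :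
    (∑ j ∈ J, M j).det = ∑ φ ∈ Fintype.piFinset (fun _ : Fin m => J), LA_row M φ := by
  classical
  have h := (Matrix.detRowAlternating (n := Fin m) (R := ℝ)).toMultilinearMap.map_sum_finset
    (fun i j => (M j i : Fin m → ℝ)) (fun _ => J)
  have h1 : (∑ j ∈ J, M j).det
      = (Matrix.detRowAlternating (n := Fin m) (R := ℝ)).toMultilinearMap
        (fun i => ∑ j ∈ J, (M j i : Fin m → ℝ)) := by
    show (∑ j ∈ J, M j).det = Matrix.det (Matrix.of fun i => ∑ j ∈ J, (M j i : Fin m → ℝ))
    congr 1
    ext i k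
    simp [Matrix.sum_apply]
  rw [h1, h]
  rfl

theorem LA_indicator (φ : Fin m → Fin m) :
    (∑ J : Finset (Fin m), (-1 : ℝ) ^ (m - J.card) * (if ∀ i, φ i ∈ J then 1 else 0))
      = if Function.Surjective φ then 1 else 0 := by
  classical
  have hcomp : (∑ J : Finset (Fin m), (-1 : ℝ) ^ (m - J.card) * (if ∀ i, φ i ∈ J then 1 else 0))
      = ∑ J : Finset (Fin m), (-1 : ℝ) ^ J.card * (if ∀ i, φ i ∉ J then 1 else 0) := by
    refine (compl_bijective (α := Finset (Fin m))).sum_comp
      (fun J : Finset (Fin m) => (-1 : ℝ) ^ J.card * (if ∀ i, φ i ∉ J then 1 else 0)) ▸ ?_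
    refine Finset.sum_congr rfl fun J _ => ?_
    simp [Finset.card_compl]
  rw [hcomp]
  have h2 : (∑ J : Finset (Fin m), (-1 : ℝ) ^ J.card * (if ∀ i, φ i ∉ J then 1 else 0))
      = ∑ J ∈ ((univ.image φ)ᶜ).powerset, (-1 : ℝ) ^ J.card := by
    simp only [mul_ite, mul_one, mul_zero]
    rw [← Finset.sum_filter]
    refine Finset.sum_congr ?_ fun _ _ => rfl
    ext J
    simp only [mem_filter, mem_univ, true_and, mem_powerset]
    constructor
    · intro h x hx
      simp only [mem_compl, mem_image, mem_univ, true_and, not_exists]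
      intro i hi
      exact h i (hi ▸ hx)
    · intro h i hi
      have := h hi
      simp at this
  rw [h2]
  have h3 := congrArg (fun z : ℤ => (z : ℝ))
    (Finset.sum_powerset_neg_one_pow_card (x := (univ.image φ)ᶜ))
  push_cast at h3
  rw [h3]
  have h4 : ((univ.image φ)ᶜ = ∅) ↔ Function.Surjective φ := by
    rw [Finset.compl_eq_empty_iff]
    constructor
    · intro h y
      have : y ∈ univ.image φ := by rw [h]; exact mem_univ _
      simpa using this
    · intro h
      exact Finset.image_univ_of_surjective h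
  simp only [h4]

theorem LA_sum_surj (F : (Fin m → Fin m) → ℝ) :
    (∑ φ : Fin m → Fin m, if Function.Surjective φ then F φ else 0)
      = ∑ σ : Equiv.Perm (Fin m), F σ := by
  classical
  rw [← Finset.sum_filter]
  symm
  refine Finset.sum_bij (fun σ _ => (σ : Fin m → Fin m)) ?_ ?_ ?_ ?_
  · intro σ _
    simp [σ.surjective]
  · intro σ _ τ _ h
    exact Equiv.coe_fn_injective h
  · intro φ hφ
    simp only [mem_filter, mem_univ, true_and] at hφ
    exact ⟨Equiv.ofBijective φ ⟨Finite.injective_iff_surjective.2 hφ, hφ⟩, mem_univ _, rfl⟩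
  · intro σ _
    rfl

theorem mD_eq_row (M : Fin m → Matrix (Fin m) (Fin m) ℝ) :
    mD M = (1 / (m.factorial : ℝ)) * ∑ σ : Equiv.Perm (Fin m), LA_row M σ := rfl

/-- Polarization formula of the mixed discriminant. -/
theorem mD_polarization (M : Fin m → Matrix (Fin m) (Fin m) ℝ) :
    mD M = (1 / (m.factorial : ℝ)) *
      ∑ J : Finset (Fin m), (-1 : ℝ) ^ (m - J.card) * (∑ j ∈ J, M j).det := by
  classical
  rw [mD_eq_row]
  congr 1
  have h1 : ∀ J : Finset (Fin m), (-1 : ℝ) ^ (m - J.card) * (∑ j ∈ J, M j).det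
      = ∑ φ : Fin m → Fin m, ((-1 : ℝ) ^ (m - J.card) * (if ∀ i, φ i ∈ J then 1 else 0))
        * LA_row M φ := by
    intro J
    rw [LA_det_sum, Finset.mul_sum]
    have : (Fintype.piFinset (fun _ : Fin m => J)) = univ.filter (fun φ => ∀ i, φ i ∈ J) := by
      ext φ; simp
    rw [this, Finset.sum_filter]
    refine Finset.sum_congr rfl fun φ _ => ?_
    split_ifs <;> simp
  simp only [h1]
  rw [Finset.sum_comm, ← LA_sum_surj]
  refine Finset.sum_congr rfl fun φ _ => ?_
  rw [← Finset.sum_mul, LA_indicator]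
  split_ifs <;> simp

/-- The `i`-th row as a linear map. -/
def LA_rowL (i : Fin m) : Matrix (Fin m) (Fin m) ℝ →ₗ[ℝ] (Fin m → ℝ) where
  toFun M := fun j => M i j
  map_add' M N := by ext j; simp
  map_smul' c M := by ext j; simp

/-- The mixed discriminant as a multilinear map. -/
noncomputable def mDM (m : ℕ) :
    MultilinearMap ℝ (fun _ : Fin m => Matrix (Fin m) (Fin m) ℝ) ℝ :=
  (1 / (m.factorial : ℝ)) • ∑ σ : Equiv.Perm (Fin m),
    (((Matrix.detRowAlternating (n := Fin m) (R := ℝ)).toMultilinearMap.compLinearMap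
      LA_rowL).domDomCongr σ)

theorem mDM_apply (M : Fin m → Matrix (Fin m) (Fin m) ℝ) : mDM m M = mD M := by
  unfold mDM mD
  rw [_root_.smul_apply, _root_.sum_apply, smul_eq_mul]
  rfl

theorem mD_perm (M : Fin m → Matrix (Fin m) (Fin m) ℝ) (τ : Equiv.Perm (Fin m)) :
    mD (fun i => M (τ i)) = mD M := by
  unfold mD
  congr 1
  exact Fintype.sum_equiv (Equiv.mulLeft τ) _ _ (fun σ => rfl)

theorem mD_const (G : Matrix (Fin m) (Fin m) ℝ) : mD (fun _ => G) = G.det := by
  unfold mD
  have : ∀ σ : Equiv.Perm (Fin m), (Matrix.of fun i j => G i j).det = G.det := fun _ => rfl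
  simp only [Finset.sum_const, Finset.card_univ, Fintype.card_perm, Fintype.card_fin,
    nsmul_eq_mul]
  have hm : (m.factorial : ℝ) ≠ 0 := by positivity
  rw [this 1]
  field_simp

theorem mD_update_add (M : Fin m → Matrix (Fin m) (Fin m) ℝ) (i : Fin m)
    (X Y : Matrix (Fin m) (Fin m) ℝ) :
    mD (Function.update M i (X + Y))
      = mD (Function.update M i X) + mD (Function.update M i Y) := by
  simp only [← mDM_apply]
  exact (mDM m).map_update_add M i X Y

theorem mD_update_smul (M : Fin m → Matrix (Fin m) (Fin m) ℝ) (i : Fin m) (c : ℝ)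
    (X : Matrix (Fin m) (Fin m) ℝ) :
    mD (Function.update M i (c • X)) = c * mD (Function.update M i X) := by
  simp only [← mDM_apply]
  exact (mDM m).map_update_smul M i c X

theorem mD_smul_univ (c : Fin m → ℝ) (M : Fin m → Matrix (Fin m) (Fin m) ℝ) :
    mD (fun i => c i • M i) = (∏ i, c i) * mD M := by
  simp only [← mDM_apply]
  exact (mDM m).map_smul_univ c M

theorem mD_sum {α : Type*} [Fintype α] (g : Fin m → α → Matrix (Fin m) (Fin m) ℝ) :
    mD (fun i => ∑ a, g i a) = ∑ r : Fin m → α, mD (fun i => g i (r i)) := by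
  classical
  simp only [← mDM_apply]
  exact (mDM m).map_sum g

/-- The determinant of a sum in terms of mixed discriminants. -/
theorem det_sum_eq_mD {α : Type*} [Fintype α] (M : α → Matrix (Fin m) (Fin m) ℝ) :
    (∑ a, M a).det = ∑ φ : Fin m → α, mD (fun i => M (φ i)) := by
  rw [← mD_const, mD_sum (fun _ a => M a)]

theorem mD_rank_one (v : Fin m → Fin m → ℝ) :
    mD (fun i => Matrix.vecMulVec (v i) (v i))
      = (1 / (m.factorial : ℝ)) * (Matrix.of v).det ^ 2 := by
  classical
  unfold mD
  congr 1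
  have h1 : ∀ σ : Equiv.Perm (Fin m),
      (Matrix.of fun i j => (Matrix.vecMulVec (v (σ i)) (v (σ i))) i j).det
        = (((Equiv.Perm.sign σ : ℤ) : ℝ) * ∏ i, v (σ i) i) * (Matrix.of v).det := by
    intro σ
    have e1 : (Matrix.of fun i j => (Matrix.vecMulVec (v (σ i)) (v (σ i))) i j)
        = Matrix.of fun i j => (v (σ i) i) * ((Matrix.of v).submatrix σ id) i j := by
      ext i j
      simp [Matrix.vecMulVec_apply]
    rw [e1, Matrix.det_mul_column (fun i => v (σ i) i) ((Matrix.of v).submatrix σ id),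
      Matrix.det_permute]
    ring
  simp only [h1]
  rw [← Finset.sum_mul, sq]
  congr 1
  rw [Matrix.det_apply']
  simp only [Matrix.of_apply]

theorem posSemidef_exists_sum {A : Matrix (Fin m) (Fin m) ℝ} (hA : A.PosSemidef) :
    ∃ v : Fin m → Fin m → ℝ, A = ∑ k, Matrix.vecMulVec (v k) (v k) := by
  open scoped MatrixOrder in
  obtain ⟨B, hB⟩ := CStarAlgebra.nonneg_iff_eq_star_mul_self.mp hA.nonneg
  refine ⟨fun k => B k, ?_⟩
  rw [hB]
  ext i j
  simp [Matrix.mul_apply, Matrix.sum_apply, Matrix.vecMulVec_apply, Matrix.star_apply]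

theorem mD_nonneg {M : Fin m → Matrix (Fin m) (Fin m) ℝ} (hM : ∀ i, (M i).PosSemidef) :
    0 ≤ mD M := by
  classical
  choose v hv using fun i => posSemidef_exists_sum (hM i)
  have : M = fun i => ∑ k, Matrix.vecMulVec (v i k) (v i k) := by
    funext i; exact hv i
  rw [this, mD_sum]
  refine Finset.sum_nonneg fun r _ => ?_
  rw [mD_rank_one (fun i => v i (r i))]
  positivity

theorem mD_mono {M N : Fin m → Matrix (Fin m) (Fin m) ℝ} (hM : ∀ i, (M i).PosSemidef)
    (hN : ∀ i, (N i - M i).PosSemidef) : mD M ≤ mD N := by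
  classical
  have h : N = fun i => ∑ b : Bool, (if b then M i else N i - M i) := by
    funext i
    simp
  rw [h, mD_sum (fun i (b : Bool) => if b then M i else N i - M i)]
  have h0 : ∀ r : Fin m → Bool, 0 ≤ mD (fun i => if r i then M i else N i - M i) := by
    intro r
    refine mD_nonneg fun i => ?_
    by_cases hr : r i
    · simpa [hr] using hM i
    · simpa [hr] using hN i
  calc mD M = mD (fun i => if (fun _ : Fin m => true) i then M i else N i - M i) := by simp
    _ ≤ _ := Finset.single_le_sum (f := fun r : Fin m → Bool =>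
        mD (fun i => if r i then M i else N i - M i)) (fun r _ => h0 r) (mem_univ _)

/-- For positive semidefinite matrices `m! D(M) ≤ det (∑ M)`. -/
theorem factorial_mul_mD_le_det {M : Fin m → Matrix (Fin m) (Fin m) ℝ}
    (hM : ∀ i, (M i).PosSemidef) : (m.factorial : ℝ) * mD M ≤ (∑ i, M i).det := by
  classical
  rw [det_sum_eq_mD]
  have h1 : (∑ φ : Fin m → Fin m, if Function.Surjective φ then mD (fun i => M (φ i)) else 0)
      ≤ ∑ φ : Fin m → Fin m, mD (fun i => M (φ i)) := by
    refine Finset.sum_le_sum fun φ _ => ?_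
    split_ifs
    · exact le_rfl
    · exact mD_nonneg fun i => hM _
  refine le_trans (le_of_eq ?_) h1
  rw [LA_sum_surj (fun φ => mD (fun i => M (φ i)))]
  simp only [mD_perm]
  simp [Finset.card_univ, Fintype.card_perm]

theorem LA_det_updateRow (G X : Matrix (Fin m) (Fin m) ℝ) (i : Fin m) :
    (G.updateRow i (X i)).det = (X * G.adjugate) i i := by
  rw [← Matrix.cramer_transpose_apply, Matrix.cramer_eq_adjugate_mulVec]
  simp only [Matrix.mulVec, dotProduct, Matrix.mul_apply]
  refine Finset.sum_congr rfl fun j _ => ?_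
  rw [← Matrix.adjugate_transpose, Matrix.transpose_apply]
  ring

/-- The mixed discriminant of `X` (once) and `G` (`m - 1` times). -/
theorem mul_mD_one (i₀ : Fin m) (X G : Matrix (Fin m) (Fin m) ℝ) :
    (m : ℝ) * mD (fun j => if j = i₀ then X else G) = (X * G.adjugate).trace := by
  classical
  have hsymm : ∀ i₁ : Fin m, mD (fun j => if j = i₁ then X else G)
      = mD (fun j => if j = i₀ then X else G) := by
    intro i₁
    rw [← mD_perm (fun j => if j = i₁ then X else G) (Equiv.swap i₀ i₁)]
    congr 1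
    funext j
    have : (Equiv.swap i₀ i₁ j = i₁) ↔ j = i₀ := by
      constructor
      · intro h
        rw [Equiv.swap_apply_eq_iff] at h
        simpa using h
      · rintro rfl
        simp
    simp only [this]
  have h1 : (m : ℝ) * mD (fun j => if j = i₀ then X else G)
      = ∑ i₁ : Fin m, mD (fun j => if j = i₁ then X else G) := by
    simp only [hsymm]
    simp
  rw [h1]
  have h2 : ∀ (i₁ : Fin m) (σ : Equiv.Perm (Fin m)),
      LA_row (fun j => if j = i₁ then X else G) σ
        = (X * G.adjugate) (σ⁻¹ i₁) (σ⁻¹ i₁) := by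
    intro i₁ σ
    rw [← LA_det_updateRow]
    unfold LA_row
    congr 1
    ext i j
    by_cases h : i = σ⁻¹ i₁
    · subst h
      simp
    · have h' : σ i ≠ i₁ := by
        intro h2
        exact h (by rw [← h2]; simp)
      rw [Matrix.updateRow_ne h]
      simp [h']
  simp only [mD_eq_row, h2]
  rw [← Finset.mul_sum, Finset.sum_comm]
  have h3 : ∀ σ : Equiv.Perm (Fin m), ∑ i₁ : Fin m, (X * G.adjugate) (σ⁻¹ i₁) (σ⁻¹ i₁)
      = (X * G.adjugate).trace := by
    intro σ
    exact Equiv.sum_comp (σ⁻¹ : Equiv.Perm (Fin m)) (fun i => (X * G.adjugate) i i)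
  simp only [h3]
  simp only [Finset.sum_const, Finset.card_univ, Fintype.card_perm, Fintype.card_fin,
    nsmul_eq_mul]
  have hm : (m.factorial : ℝ) ≠ 0 := by positivity
  field_simp

theorem mD_one (i₀ : Fin m) (X G : Matrix (Fin m) (Fin m) ℝ) :
    mD (fun j => if j = i₀ then X else G) = (1 / (m : ℝ)) * (X * G.adjugate).trace := by
  have hm : (m : ℝ) ≠ 0 := by
    have : 0 < m := lt_of_le_of_lt (Nat.zero_le _) i₀.2
    exact_mod_cast this.ne'
  rw [← mul_mD_one i₀]
  field_simp

theorem mD_one_vecMulVec (i₀ : Fin m) (l : Fin m → ℝ) (G : Matrix (Fin m) (Fin m) ℝ) :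
    mD (fun j => if j = i₀ then Matrix.vecMulVec l l else G)
      = (1 / (m : ℝ)) * (l ⬝ᵥ (G.adjugate *ᵥ l)) := by
  rw [mD_one]
  congr 1
  simp only [Matrix.trace, Matrix.diag, Matrix.mul_apply, Matrix.vecMulVec_apply, dotProduct,
    Matrix.mulVec, Finset.mul_sum]
  rw [Finset.sum_comm]
  refine Finset.sum_congr rfl fun i _ => Finset.sum_congr rfl fun j _ => ?_
  ring

/-- Determinants of `t • X + G`. -/
theorem det_smul_add (t : ℝ) (X G : Matrix (Fin m) (Fin m) ℝ) :
    (t • X + G).det = ∑ S : Finset (Fin m), t ^ S.card * mD (fun j => if j ∈ S then X else G) := by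
  classical
  rw [← mD_const (t • X + G)]
  have h : (fun _ : Fin m => t • X + G) = fun i => ∑ b : Bool, (if b then t • X else G) := by
    funext i
    simp
  rw [h, mD_sum (fun _ (b : Bool) => if b then t • X else G)]
  refine Finset.sum_nbij' (fun r => univ.filter (fun j => r j = true))
    (fun S j => decide (j ∈ S)) ?_ ?_ ?_ ?_ ?_
  · intro r _; exact mem_univ _
  · intro S _; exact mem_univ _
  · intro r _; funext j; simp
  · intro S _; ext j; simp
  · intro r _
    have h1 : (fun i => if r i = true then t • X else G)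
        = fun i => (if r i = true then t else 1) • (if r i = true then X else G) := by
      funext i
      split_ifs <;> simp
    have h2 : (∏ i : Fin m, if r i = true then t else 1)
        = t ^ (univ.filter (fun j => r j = true)).card := by
      rw [Finset.prod_ite]
      simp
    rw [h1, mD_smul_univ, h2]
    simp

end Pool.Agent.helper83.SC
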