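import Pool.Agent.helper83.SC.Stmt

/-!
Module UE: the Alexandrov measure of a compact set is at most the volume of its subgradient image.
-/

open scoped Pointwise ContDiff Manifold
open MeasureTheory Set Filter Topology

namespace Pool.Agent.helper83.SC

theorem UE_continuous {m : ℕ} {h : E m → ℝ} (hh : CV h) : Continuous h := by
  have := ConvexOn.continuousOn isOpen_univ hh
  exact continuousOn_univ.1 this

theorem UE_isClosed_argmin {m : ℕ} {h : E m → ℝ} (hh : CV h) (p : E m) :
    IsClosed {y | IsArgmin h p y} := by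
  have hc := UE_continuous hh
  have : {y | IsArgmin h p y} = ⋂ z : E m, {y | h y - inner ℝ p y ≤ h z - inner ℝ p z} := by
    ext y
    simp only [IsArgmin, Set.mem_ofPred_eq, Set.mem_iInter]
  rw [this]
  refine isClosed_iInter fun z => ?_
  refine isClosed_le ?_ continuous_const
  exact hc.sub (continuous_const.inner continuous_id)

theorem UE_exists_bump {m : ℕ} {Z : Set (E m)} (hZ : IsCompact Z) {δ : ℝ} (hδ : 0 < δ) :
    ∃ φ : E m → ℝ, Test φ ∧ (∀ x, φ x ≤ 1) ∧ (∀ x ∈ Z, φ x = 1) ∧
      ∀ x, φ x ≠ 0 → x ∈ Metric.cthickening δ Z := by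
  obtain ⟨f, hf1, hf2, hf3, hf4⟩ := exists_contMDiff_support_eq_eq_one_iff (n := (⊤ : ℕ∞))
    (𝓘(ℝ, E m)) (Metric.isOpen_thickening (δ := δ) (E := Z)) hZ.isClosed
    (Metric.self_subset_thickening hδ Z)
  refine ⟨f, ⟨hf1.contDiff, ?_, ?_⟩, ?_, ?_, ?_⟩
  · refine HasCompactSupport.intro' (hZ.cthickening (r := δ)) Metric.isClosed_cthickening ?_
    intro x hx
    by_contra hne
    have : x ∈ Function.support f := hne
    rw [hf3] at this
    exact hx (Metric.thickening_subset_cthickening δ Z this)
  · intro x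
    exact (hf2 (Set.mem_range_self x)).1
  · intro x
    exact (hf2 (Set.mem_range_self x)).2
  · intro x hx
    exact (hf4 x).1 hx
  · intro x hne
    have : x ∈ Function.support f := hne
    rw [hf3] at this
    exact Metric.thickening_subset_cthickening δ Z this

theorem UE_A_le (hcomp : subgr_compact_stmt) {m : ℕ} {φ h : E m → ℝ} (hh : CV h)
    {Y : Set (E m)} (hY : IsCompact Y) (h0 : ∀ x, 0 ≤ φ x) (h1 : ∀ x, φ x ≤ 1)
    (hφY : ∀ x, φ x ≠ 0 → x ∈ Y) : A φ h ≤ (volume (subgr h Y)).toReal := by
  have hK : IsCompact (subgr h Y) := hcomp hh hY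
  have hm : MeasurableSet (subgr h Y) := hK.isClosed.measurableSet
  have hfin : volume (subgr h Y) ≠ ⊤ := hK.measure_lt_top.ne
  have hint : Integrable (Set.indicator (subgr h Y) (fun _ => (1 : ℝ))) := by
    rw [integrable_indicator_iff hm]
    exact integrableOn_const hfin
  have hle : ∀ p, sel φ h p ≤ Set.indicator (subgr h Y) (fun _ => (1 : ℝ)) p := by
    intro p
    by_cases hp : p ∈ subgr h Y
    · rw [Set.indicator_of_mem hp]
      unfold sel
      refine Real.sSup_le ?_ zero_le_one
      rintro _ ⟨y, _, rfl⟩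
      exact h1 y
    · rw [Set.indicator_of_notMem hp]
      unfold sel
      refine Real.sSup_le ?_ le_rfl
      rintro _ ⟨y, hy, rfl⟩
      by_contra hne
      exact hp ⟨y, hφY y (fun h => hne (le_of_eq h)), hy⟩
  have hge : ∀ p, 0 ≤ sel φ h p := by
    intro p
    unfold sel
    refine Real.sSup_nonneg ?_
    rintro _ ⟨y, _, rfl⟩
    exact h0 y
  unfold A
  calc ∫ p, sel φ h p ≤ ∫ p, Set.indicator (subgr h Y) (fun _ => (1 : ℝ)) p :=
        integral_mono_of_nonneg (Filter.Eventually.of_forall hge) hint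
          (Filter.Eventually.of_forall hle)
    _ = (volume (subgr h Y)).toReal := by
        rw [integral_indicator hm]
        simp [Measure.real]

theorem UE_tendsto (hcomp : subgr_compact_stmt) {m : ℕ} {h : E m → ℝ} (hh : CV h)
    {Z : Set (E m)} (hZ : IsCompact Z) :
    Tendsto (fun n : ℕ => volume (subgr h (Metric.cthickening (1 / ((n : ℝ) + 1)) Z))) atTop
      (𝓝 (volume (subgr h Z))) := by
  have hcpt : ∀ n : ℕ, IsCompact (Metric.cthickening (1 / ((n : ℝ) + 1)) Z) :=
    fun n => hZ.cthickening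
  have hmono : Antitone fun n : ℕ => Metric.cthickening (1 / ((n : ℝ) + 1)) Z := by
    intro a b hab
    refine Metric.cthickening_mono ?_ Z
    have : ((a : ℝ) + 1) ≤ (b : ℝ) + 1 := by
      have : (a : ℝ) ≤ b := by exact_mod_cast hab
      linarith
    exact one_div_le_one_div_of_le (by positivity) this
  have hmono' : Antitone fun n : ℕ => subgr h (Metric.cthickening (1 / ((n : ℝ) + 1)) Z) := by
    intro a b hab p hp
    obtain ⟨y, hy, hyp⟩ := hp
    exact ⟨y, hmono hab hy, hyp⟩
  have key := tendsto_measure_iInter_atTop (μ := (volume : Measure (E m)))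
    (s := fun n : ℕ => subgr h (Metric.cthickening (1 / ((n : ℝ) + 1)) Z))
    (fun n => (hcomp hh (hcpt n)).isClosed.measurableSet.nullMeasurableSet) hmono'
    ⟨0, (hcomp hh (hcpt 0)).measure_lt_top.ne⟩
  have hset : (⋂ n : ℕ, subgr h (Metric.cthickening (1 / ((n : ℝ) + 1)) Z)) = subgr h Z := by
    ext p
    constructor
    · intro hp
      rw [Set.mem_iInter] at hp
      -- the compact sets of argmins in the thickenings
      have hne : (⋂ n : ℕ, (Metric.cthickening (1 / ((n : ℝ) + 1)) Z ∩ {y | IsArgmin h p y})).Nonempty := by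
        refine IsCompact.nonempty_iInter_of_sequence_nonempty_isCompact_isClosed _ ?_ ?_ ?_ ?_
        · intro n
          exact Set.inter_subset_inter_left _ (hmono (Nat.le_succ n))
        · intro n
          obtain ⟨y, hy, hyp⟩ := hp n
          exact ⟨y, hy, hyp⟩
        · exact (hcpt 0).inter_right (UE_isClosed_argmin hh p)
        · intro n
          exact Metric.isClosed_cthickening.inter (UE_isClosed_argmin hh p)
      obtain ⟨y, hy⟩ := hne
      rw [Set.mem_iInter] at hy
      refine ⟨y, ?_, (hy 0).2⟩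
      have hcl : y ∈ closure Z := by
        rw [Metric.closure_eq_iInter_cthickening' Z (Set.range fun n : ℕ => 1 / ((n : ℝ) + 1))]
        · simp only [Set.mem_iInter]
          rintro _ ⟨n, rfl⟩
          exact (hy n).1
        · intro ε hε
          obtain ⟨n, hn⟩ := exists_nat_one_div_lt hε
          exact ⟨_, ⟨n, rfl⟩, by positivity, hn.le⟩
      rwa [hZ.isClosed.closure_eq] at hcl
    · rintro ⟨y, hy, hyp⟩
      rw [Set.mem_iInter]
      intro n
      exact ⟨y, Metric.self_subset_cthickening Z hy, hyp⟩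
  rw [hset] at key
  exact key

theorem exists_test_subgr_of (hcomp : subgr_compact_stmt) : exists_test_subgr_stmt := by
  intro m h hh Z hZ ε hε
  have hfinZ : volume (subgr h Z) ≠ ⊤ := (hcomp hh hZ).measure_lt_top.ne
  have ht := UE_tendsto hcomp hh hZ
  have ht' := (ENNReal.tendsto_toReal hfinZ).comp ht
  have hev := ht'.eventually (gt_mem_nhds (show (volume (subgr h Z)).toReal
    < (volume (subgr h Z)).toReal + ε by linarith))
  obtain ⟨n, hn⟩ := hev.exists
  obtain ⟨φ, hφ, h1, h2, h3⟩ := UE_exists_bump hZ (δ := 1 / ((n : ℝ) + 1)) (by positivity)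
  refine ⟨φ, hφ, fun x hx => (h2 x hx).ge, ?_⟩
  refine (UE_A_le hcomp hh (hZ.cthickening (r := 1 / ((n : ℝ) + 1))) hφ.2.2 h1 h3).trans ?_
  exact hn.le

end Pool.Agent.helper83.SC
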